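import Pool.Agent.V1125.PQFinal

/-!
# Unbounded retreat depth in all groups `G_{p,q}` with respect to walk or switch generators
-/

set_option autoImplicit false

namespace Pool.Agent.Results.MP_6c6968_al.UnboundedForAllPQ

open Pool.Agent.V1125 Pool.Agent.V1125.PQ

/-- The ratio `p / q`. -/
def ratio (p q : ℕ+) : ℚ := ((p : ℕ) : ℚ) / ((q : ℕ) : ℚ)

/-- The ring `A = ℤ[p/q, q/p]`. -/
def A (p q : ℕ+) : Subring ℚ := Subring.closure {ratio p q, ratio q p}

theorem ratio_ne (p q : ℕ+) : ratio p q ≠ 0 := by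
  have h1 : ((p : ℕ) : ℚ) ≠ 0 := by exact_mod_cast p.pos.ne'
  have h2 : ((q : ℕ) : ℚ) ≠ 0 := by exact_mod_cast q.pos.ne'
  exact div_ne_zero h1 h2

theorem ratio_inv (p q : ℕ+) : (ratio p q)⁻¹ = ratio q p := by
  unfold ratio
  rw [inv_div]

theorem zpow_mem (p q : ℕ+) (k : ℤ) : ratio p q ^ k ∈ A p q := by
  have h1 : ratio p q ∈ A p q := Subring.subset_closure (Set.mem_insert _ _)
  have h2 : ratio q p ∈ A p q := Subring.subset_closure (Set.mem_insert_of_mem _ rfl)
  obtain ⟨n, rfl | rfl⟩ := k.eq_nat_or_neg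
  · rw [zpow_natCast]
    exact Subring.pow_mem _ h1 n
  · rw [zpow_neg, zpow_natCast, ← inv_pow, ratio_inv]
    exact Subring.pow_mem _ h2 n

/-- The group `G_{p,q} = A ⋊ ℤ`, with elements `(x, k)`, `x ∈ A`. -/
@[ext] structure Gpq (p q : ℕ+) where
  x : ℚ
  k : ℤ
  mem : x ∈ A p q

namespace Gpq

variable {p q : ℕ+}

/-- The product `(x, k) (y, m) = (x + (p/q)^k y, k + m)`. -/
instance : Mul (Gpq p q) :=
  ⟨fun g h => ⟨g.x + ratio p q ^ g.k * h.x, g.k + h.k,
    Subring.add_mem _ g.mem (Subring.mul_mem _ (zpow_mem p q g.k) h.mem)⟩⟩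

instance : One (Gpq p q) := ⟨⟨0, 0, Subring.zero_mem _⟩⟩

instance : Inv (Gpq p q) :=
  ⟨fun g => ⟨-(ratio p q ^ (-g.k) * g.x), -g.k,
    Subring.neg_mem _ (Subring.mul_mem _ (zpow_mem p q _) g.mem)⟩⟩

@[simp] theorem mul_x (g h : Gpq p q) : (g * h).x = g.x + ratio p q ^ g.k * h.x := rfl
@[simp] theorem mul_k (g h : Gpq p q) : (g * h).k = g.k + h.k := rfl
@[simp] theorem one_x : (1 : Gpq p q).x = 0 := rfl
@[simp] theorem one_k : (1 : Gpq p q).k = 0 := rfl
@[simp] theorem inv_x (g : Gpq p q) : (g⁻¹).x = -(ratio p q ^ (-g.k) * g.x) := rfl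
@[simp] theorem inv_k (g : Gpq p q) : (g⁻¹).k = -g.k := rfl

instance : Group (Gpq p q) := Group.ofLeftAxioms
  (fun g h k => by
    ext
    · simp only [mul_x, mul_k]
      rw [zpow_add₀ (ratio_ne p q)]
      ring
    · simp only [mul_k]
      ring)
  (fun g => by ext <;> simp)
  (fun g => by ext <;> simp)

end Gpq

/-- The generator `a = (1, 0)`. -/
def a (p q : ℕ+) : Gpq p q := ⟨1, 0, Subring.one_mem _⟩

/-- The generator `t = (0, 1)`. -/
def t (p q : ℕ+) : Gpq p q := ⟨0, 1, Subring.zero_mem _⟩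

/-- The walk or switch generating set `S_1 = {a^{±1}, t^{±1}}`. -/
def S₁ (p q : ℕ+) : Set (Gpq p q) := {a p q, (a p q)⁻¹, t p q, (t p q)⁻¹}

variable {p q : ℕ+}

/-- The coordinates on the subgroup generated by `a` and `t`. -/
def subModel (p q : ℕ+) : Model (ratio p q)
    (Subgroup.closure ({a p q, t p q} : Set (Gpq p q)))
    ⟨a p q, Subgroup.subset_closure (Or.inl rfl)⟩
    ⟨t p q, Subgroup.subset_closure (Or.inr rfl)⟩ where
  X g := (g : Gpq p q).x
  K g := (g : Gpq p q).k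
  X_mul _ _ := rfl
  K_mul _ _ := rfl
  Xa := rfl
  Ka := rfl
  Xt := rfl
  Kt := rfl
  inj g h h1 h2 := Subtype.ext (Gpq.ext h1 h2)
  gen := by
    have h := Subgroup.closure_closure_coe_preimage (k := ({a p q, t p q} : Set (Gpq p q)))
    have h2 : (Subtype.val ⁻¹' ({a p q, t p q} : Set (Gpq p q)) :
        Set (Subgroup.closure ({a p q, t p q} : Set (Gpq p q)))) =
        {⟨a p q, Subgroup.subset_closure (Or.inl rfl)⟩,
          ⟨t p q, Subgroup.subset_closure (Or.inr rfl)⟩} := by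
      ext g
      constructor
      · rintro (h3 | h3)
        · exact Or.inl (Subtype.ext h3)
        · exact Or.inr (Subtype.ext h3)
      · rintro (h3 | h3)
        · exact Or.inl (congrArg Subtype.val h3)
        · exact Or.inr (congrArg Subtype.val h3)
    rw [← h2]
    exact h

theorem lat_of_mem {x : ℚ} (hx : x ∈ A p q) : ∃ N : ℕ, Lat p q N x := by
  have hp0 : ((p : ℕ) : ℚ) ≠ 0 := by exact_mod_cast p.pos.ne'
  have hq0 : ((q : ℕ) : ℚ) ≠ 0 := by exact_mod_cast q.pos.ne'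
  induction hx using Subring.closure_induction with
  | mem x hx =>
    rcases hx with rfl | hx
    · refine ⟨1, (p : ℤ) * (p : ℤ), ?_⟩
      unfold ratio
      push_cast
      field_simp
    · rw [Set.mem_singleton_iff] at hx
      subst hx
      refine ⟨1, (q : ℤ) * (q : ℤ), ?_⟩
      unfold ratio
      push_cast
      field_simp
  | zero => exact ⟨0, 0, by simp⟩
  | one => exact ⟨0, 1, by simp⟩
  | add x y _ _ hx hy =>
    obtain ⟨N, z, hz⟩ := hx
    obtain ⟨N', w, hw⟩ := hy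
    refine ⟨N + N', z * ((p : ℤ) ^ N' * (q : ℤ) ^ N') + w * ((p : ℤ) ^ N * (q : ℤ) ^ N), ?_⟩
    push_cast
    rw [← hz, ← hw, pow_add, pow_add]
    ring
  | neg x _ hx =>
    obtain ⟨N, hz⟩ := hx
    exact ⟨N, hz.neg⟩
  | mul x y _ _ hx hy =>
    obtain ⟨N, z, hz⟩ := hx
    obtain ⟨N', w, hw⟩ := hy
    refine ⟨N + N', z * w, ?_⟩
    push_cast
    rw [← hz, ← hw, pow_add, pow_add]
    ring

theorem gen_of_lt (hpq : (q : ℕ) < p) (hcop : Nat.Coprime p q) :
    Subgroup.closure ({a p q, t p q} : Set (Gpq p q)) = ⊤ := by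
  rw [eq_top_iff]
  rintro g -
  obtain ⟨N, hN⟩ := lat_of_mem g.mem
  obtain ⟨h, h1, h2⟩ := (subModel p q).exists_elt q.pos hpq hcop rfl N hN g.k
  have h3 : (h : Gpq p q) = g := Gpq.ext h1 h2
  rw [← h3]
  exact h.2

/-- The coordinates on the whole group. -/
def model (hpq : (q : ℕ) < p) (hcop : Nat.Coprime p q) :
    Model (ratio p q) (Gpq p q) (a p q) (t p q) where
  X g := g.x
  K g := g.k
  X_mul _ _ := rfl
  K_mul _ _ := rfl
  Xa := rfl
  Ka := rfl
  Xt := rfl
  Kt := rfl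
  inj _ _ h1 h2 := Gpq.ext h1 h2
  gen := gen_of_lt hpq hcop

theorem A_comm (p q : ℕ+) : A p q = A q p := by
  unfold A
  rw [Set.pair_comm]

/-- The isomorphism of `G_{p,q}` with `G_{q,p}` that inverts `t`. -/
def swap (p q : ℕ+) : Gpq p q ≃* Gpq q p where
  toFun g := ⟨g.x, -g.k, by rw [← A_comm]; exact g.mem⟩
  invFun g := ⟨g.x, -g.k, by rw [A_comm]; exact g.mem⟩
  left_inv g := by ext <;> simp
  right_inv g := by ext <;> simp
  map_mul' g h := by
    ext
    · simp only [Gpq.mul_x]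
      rw [← ratio_inv p q, inv_zpow', neg_neg]
    · simp only [Gpq.mul_k]
      ring

theorem swap_a : swap p q (a p q) = a q p := rfl

theorem swap_t : swap p q (t p q)⁻¹ = t q p := by
  rw [map_inv]
  ext
  · simp [swap, t]
  · simp [swap, t]

/-- The coordinates on `G_{p,q}` for `p < q`. -/
def model' (hpq : (p : ℕ) < q) (hcop : Nat.Coprime p q) :
    Model (ratio q p) (Gpq p q) (a p q) (t p q)⁻¹ where
  X g := (swap p q g).x
  K g := (swap p q g).k
  X_mul g h := by rw [map_mul]; rfl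
  K_mul g h := by rw [map_mul]; rfl
  Xa := rfl
  Ka := rfl
  Xt := by rw [swap_t]; rfl
  Kt := by rw [swap_t]; rfl
  inj g h h1 h2 := (swap p q).injective (Gpq.ext h1 h2)
  gen := by
    have h1 := gen_of_lt (p := q) (q := p) hpq hcop.symm
    have h2 : (Subgroup.closure ({a p q, (t p q)⁻¹} : Set (Gpq p q))).map
        (swap p q : Gpq p q →* Gpq q p) = ⊤ := by
      rw [MonoidHom.map_closure, Set.image_pair]
      have e1 : (swap p q : Gpq p q →* Gpq q p) (a p q) = a q p := rfl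
      have e2 : (swap p q : Gpq p q →* Gpq q p) (t p q)⁻¹ = t q p := swap_t
      rw [e1, e2, h1]
    rw [eq_top_iff]
    rintro g -
    have h3 : (swap p q : Gpq p q →* Gpq q p) g ∈
        (Subgroup.closure ({a p q, (t p q)⁻¹} : Set (Gpq p q))).map
        (swap p q : Gpq p q →* Gpq q p) := by rw [h2]; trivial
    obtain ⟨g', hg', hgg⟩ := h3
    have : g' = g := (swap p q).injective hgg
    rwa [← this]

/-- For all coprime positive `p`, `q`, not both `1`, the Cayley graph of `G_{p,q}` with respect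
to the walk or switch generating set `S_1 = {a^{±1}, t^{±1}}` has unbounded retreat depth. -/
theorem result (p q : ℕ+) (hcop : Nat.Coprime p q) (hne : ¬ (p = 1 ∧ q = 1)) (D : ℕ) :
    ∃ g : Gpq p q, D < retreatDepth (S₁ p q) g := by
  rcases lt_trichotomy (q : ℕ) (p : ℕ) with h | h | h
  · obtain ⟨g, hg⟩ := (model h hcop).unbounded q.pos h hcop rfl (D + 1)
    refine ⟨g, ?_⟩
    rw [retreatDepth_congr (S' := {a p q, t p q})]
    · exact hg
    · intro s
      simp only [S₁, Set.mem_insert_iff, Set.mem_singleton_iff, inv_eq_iff_eq_inv, inv_inv]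
      tauto
  · exfalso
    apply hne
    rw [h] at hcop
    have h1 : (p : ℕ) = 1 := (Nat.coprime_self _).1 hcop
    have h2 : (q : ℕ) = 1 := by rw [h, h1]
    exact ⟨PNat.eq h1, PNat.eq h2⟩
  · obtain ⟨g, hg⟩ := (model' h hcop).unbounded p.pos h hcop.symm rfl (D + 1)
    refine ⟨g, ?_⟩
    rw [retreatDepth_congr (S' := {a p q, (t p q)⁻¹})]
    · exact hg
    · intro s
      simp only [S₁, Set.mem_insert_iff, Set.mem_singleton_iff, inv_eq_iff_eq_inv, inv_inv]
      tauto

end Pool.Agent.Results.MP_6c6968_al.UnboundedForAllPQ
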